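import Pool.Agent.WJ.RelQ64
import Pool.Agent.WK.Lit37

set_option autoImplicit false

/-!
MP_fc7ad9_lc (length of minimal solutions of word equations): solutions whose long values belong to
variables that occur at most twice, in particular quadratic equations with few repeated variables.
`A` is the alphabet of constants, `X` the finite set of variables, a word over `A` and `X` is a list
over `A ⊕ X`, and an assignment `σ : X → List A` extends to words by `flatMap` (a constant is mapped
to itself).
-/

open scoped Nat

namespace Pool.Agent.Results.MP_fc7ad9_lc.FewRepeated

/-- Let `σ` be a solution of the word equation `(L, R)` such that every variable `x` with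
`m < |σ x|` occurs at most twice in the equation and at most `k` of these variables occur exactly
twice. Then there is a solution `τ` with `τ x = σ x` for every `x` that occurs and has `|σ x| ≤ m`,
and the length of `τ` is at most `2 ^ ((4 k + 4)! + 1) * (|L| + |R| + v m) + v m`, where `v` is the
number of occurrences of variables in `L` and `R` together. -/
theorem result {A X : Type*} [DecidableEq A] [Fintype X] [DecidableEq X] (k m : ℕ)
    (L R : List (A ⊕ X)) (σ : X → List A)
    (hσ : L.flatMap (Sum.elim (fun a => [a]) σ) = R.flatMap (Sum.elim (fun a => [a]) σ))
    (h2 : ∀ x : X, m < (σ x).length → (L ++ R).count (Sum.inr x) ≤ 2)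
    (hk : (Finset.univ.filter (fun x : X => m < (σ x).length ∧
      (L ++ R).count (Sum.inr x) = 2)).card ≤ k) :
    ∃ τ : X → List A, L.flatMap (Sum.elim (fun a => [a]) τ) =
        R.flatMap (Sum.elim (fun a => [a]) τ) ∧
      (∀ x, Sum.inr x ∈ L ++ R → (σ x).length ≤ m → τ x = σ x) ∧
      ∑ x, (τ x).length ≤ 2 ^ ((4 * k + 4)! + 1) *
          (L.length + R.length + (L ++ R).countP Sum.isRight * m) +
        (L ++ R).countP Sum.isRight * m := by
  have h := WJ.relative_quadratic k m L R σ hσ h2 hk
  rw [WK.vN_append37 L R] at h
  exact h

end Pool.Agent.Results.MP_fc7ad9_lc.FewRepeated
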