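import Pool.Agent.WJ.RelR64

set_option autoImplicit false

/-!
MP_fc7ad9_lc (length of minimal solutions of word equations): word equations and solutions with
few long values. `A` is the alphabet of constants, `X` the finite set of variables, a word over `A`
and `X` is a list over `A ⊕ X`, and an assignment `σ : X → List A` extends to words by `flatMap`
(a constant is mapped to itself).
-/

namespace Pool.Agent.Results.MP_fc7ad9_lc.FewVariables

universe u w

/-- There is a constant `C` such that for every word equation `(L, R)`, every solution `σ` and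
every number `m`: if `V` contains all variables `x` that occur and have `m < |σ x|`, and if every
factor without variables has length at most `d`, then there is a solution `τ` with `τ x = σ x` for
every `x` that occurs and has `|σ x| ≤ m`, and the length of `τ` is at most
`(d + m) * 2 ^ ((v + 2) ^ (C * (k + 1) ^ 4))`, where `k = |V|` and `v` is the number of occurrences
of variables in `L` and `R` together. -/
theorem result : ∃ C : ℕ, ∀ {A : Type u} {X : Type w} [Fintype X] (L R : List (A ⊕ X))
    (σ : X → List A) (V : Finset X) (d m : ℕ),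
    L.flatMap (Sum.elim (fun a => [a]) σ) = R.flatMap (Sum.elim (fun a => [a]) σ) →
    (∀ x, Sum.inr x ∈ L ++ R → m < (σ x).length → x ∈ V) → 1 ≤ d →
    (∀ u : List A, u.map Sum.inl <:+: L ∨ u.map Sum.inl <:+: R → u.length ≤ d) →
    ∃ τ : X → List A, L.flatMap (Sum.elim (fun a => [a]) τ) =
        R.flatMap (Sum.elim (fun a => [a]) τ) ∧
      (∀ x, Sum.inr x ∈ L ++ R → (σ x).length ≤ m → τ x = σ x) ∧
      ∑ x, (τ x).length ≤
        (d + m) * 2 ^ (((L ++ R).countP Sum.isRight + 2) ^ (C * (V.card + 1) ^ 4)) := by
  obtain ⟨C, hC⟩ := WJ.relative_ratio.{u, w}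
  refine ⟨C, fun L R σ V d m h1 h2 h3 h4 => ?_⟩
  exact hC L R σ V ((L ++ R).countP Sum.isRight) d m h1 h2 (WK.vN_append37 L R).le h3
    (fun u hu => h4 u (Or.inl hu)) (fun u hu => h4 u (Or.inr hu))

end Pool.Agent.Results.MP_fc7ad9_lc.FewVariables
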