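import Pool.Agent.WJ.Rel64

set_option autoImplicit false

/-!
MP_fc7ad9_lc (length of minimal solutions of word equations): shortening the long values of a
solution of an arbitrary word equation. `A` is the alphabet of constants, `X` the finite set of
variables, a word over `A` and `X` is a list over `A ⊕ X`, and an assignment `σ : X → List A`
extends to words by `flatMap` (a constant is mapped to itself).
-/

namespace Pool.Agent.Results.MP_fc7ad9_lc.LongVariables

universe u w

/-- There is a constant `C` such that for every word equation `(L, R)`, every solution `σ` and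
every number `m`: if `V` contains all variables `x` that occur and have `m < |σ x|`, if `W`
contains those of them that occur at least twice, and if every factor without variables has length
at most `d`, then there is a solution `τ` with `τ x = σ x` for every `x` that occurs and has
`|σ x| ≤ m`, and the length of `τ` is at most
`(d + m) * (v + 2) ^ (C * (k + 1) ^ 2) * 2 ^ ((k + 1) * 2 ^ (C * (r + 1) ^ C))`, where `k = |V|`,
`r = |W|` and `v` is the number of occurrences of variables in `L` and `R` together. -/
theorem result : ∃ C : ℕ, ∀ {A : Type u} {X : Type w} [Fintype X] (L R : List (A ⊕ X))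
    (σ : X → List A) (V W : Finset X) (d m : ℕ),
    L.flatMap (Sum.elim (fun a => [a]) σ) = R.flatMap (Sum.elim (fun a => [a]) σ) →
    (∀ x, Sum.inr x ∈ L ++ R → m < (σ x).length → x ∈ V) →
    (∀ x, [Sum.inr x, Sum.inr x].Sublist (L ++ R) → m < (σ x).length → x ∈ W) → 1 ≤ d →
    (∀ u : List A, u.map Sum.inl <:+: L ∨ u.map Sum.inl <:+: R → u.length ≤ d) →
    ∃ τ : X → List A, L.flatMap (Sum.elim (fun a => [a]) τ) =
        R.flatMap (Sum.elim (fun a => [a]) τ) ∧
      (∀ x, Sum.inr x ∈ L ++ R → (σ x).length ≤ m → τ x = σ x) ∧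
      ∑ x, (τ x).length ≤ (d + m) * ((L ++ R).countP Sum.isRight + 2) ^ (C * (V.card + 1) ^ 2) *
        2 ^ ((V.card + 1) * 2 ^ (C * (W.card + 1) ^ C)) := by
  obtain ⟨C, hC⟩ := WJ.relative_bound.{u, w}
  refine ⟨C, fun L R σ V W d m h1 h2 h3 h4 h5 => ?_⟩
  obtain ⟨τ, e1, e2, e3⟩ := hC L R σ V W ((L ++ R).countP Sum.isRight) d m h1 h2 h3
    (WK.vN_append37 L R).le h4 (fun u hu => h5 u (Or.inl hu)) (fun u hu => h5 u (Or.inr hu))
  exact ⟨τ, e1, e2, e3.trans_eq (by ring)⟩

end Pool.Agent.Results.MP_fc7ad9_lc.LongVariables
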