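import Pool.Agent.WE.Res11

/-! # Typical solvable word equations over two letters -/

set_option autoImplicit false

namespace Pool.Agent.Results.MP_fc7ad9_lc.TypicalTwoLetters

open Pool.Agent.WE

theorem result (k : ℕ) (hk : 1 ≤ k) :
    (∃ C θ : ℝ, 0 ≤ θ ∧ θ < 1 ∧ ∀ n : ℕ,
      ({e ∈ solv 2 k n | minLen e ≠ 0}.ncard : ℝ) ≤ C * θ ^ n * ((solv 2 k n).ncard : ℝ)) ∧
    (∀ g : ℝ, (k : ℝ) - 1 + Real.sqrt 5 < g → ∃ C : ℝ, ∀ n : ℕ,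
      ({e ∈ solv 2 k n | minLen e ≠ 0}.ncard : ℝ) ≤ C * g ^ n) ∧
    (∀ m : ℕ, ((k : ℝ) - 1 + Real.sqrt 5) ^ (2 * m) ≤
      ((m : ℝ) + 1) * ({e ∈ solv 2 k (2 * m + 4) | minLen e ≠ 0}.ncard : ℝ)) ∧
    (∀ n : ℕ, ((k : ℝ) + Real.sqrt 2) ^ n ≤
      ((k : ℝ) + Real.sqrt 2) * (n + 1) * ((solv 2 k n).ncard : ℝ)) ∧
    (∀ g : ℝ, (k : ℝ) + Real.sqrt 2 < g → ∃ C : ℝ, ∀ n : ℕ, ((solv 2 k n).ncard : ℝ) ≤ C * g ^ n) ∧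
    (∃ C θ : ℝ, 0 ≤ θ ∧ θ < 1 ∧ ∀ m : ℕ,
      ({e ∈ solv 2 k (2 * m + 4) | 2 ≤ minLen e}.ncard : ℝ) ≤
        C * θ ^ m * ({e ∈ solv 2 k (2 * m + 4) | minLen e ≠ 0}.ncard : ℝ)) :=
  result1 k hk

end Pool.Agent.Results.MP_fc7ad9_lc.TypicalTwoLetters
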